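import Pool.Agent.Work.MP_7eddf1_co.GL.Contact

/-!
# The Gowers-Long conjecture: 2-increasing sequences of triples

The longest 2-increasing sequence of integer triples in the box
`[n₁] × [n₂] × [n₃]` has at most `√(n₁ n₂ n₃)` terms; in particular `F(n) ≤ n ^ (3/2)` for every
positive integer `n`.
-/

set_option autoImplicit false

namespace Pool.Agent.Results.MP_7eddf1_co.BoxBound

/-- `a` is 2-less than `b`: at least two of the three coordinates of the integer triple `a` are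
smaller than the corresponding coordinates of `b`. -/
def TwoLess (a b : ℤ × ℤ × ℤ) : Prop :=
  (a.1 < b.1 ∧ a.2.1 < b.2.1) ∨ (a.1 < b.1 ∧ a.2.2 < b.2.2) ∨ (a.2.1 < b.2.1 ∧ a.2.2 < b.2.2)

/-- A finite sequence (list) of integer triples is 2-increasing if every term is 2-less than
every later term. -/
def TwoIncreasing (l : List (ℤ × ℤ × ℤ)) : Prop :=
  l.Pairwise TwoLess

/-- The triple lies in the box `[n₁] × [n₂] × [n₃]`, where `[n] = {1, …, n}`. -/
def InBox (n₁ n₂ n₃ : ℕ) (t : ℤ × ℤ × ℤ) : Prop :=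
  (1 ≤ t.1 ∧ t.1 ≤ n₁) ∧ (1 ≤ t.2.1 ∧ t.2.1 ≤ n₂) ∧ (1 ≤ t.2.2 ∧ t.2.2 ≤ n₃)

/-- The set of all lengths of 2-increasing sequences of triples in `[n₁] × [n₂] × [n₃]`. -/
def Lengths (n₁ n₂ n₃ : ℕ) : Set ℕ :=
  {L | ∃ l : List (ℤ × ℤ × ℤ), TwoIncreasing l ∧ (∀ t ∈ l, InBox n₁ n₂ n₃ t) ∧ l.length = L}

/-- `F(n₁, n₂, n₃)`: the largest length of a 2-increasing sequence in `[n₁] × [n₂] × [n₃]`.
That the supremum is a maximum is part of the theorem below. -/
noncomputable def F (n₁ n₂ n₃ : ℕ) : ℕ :=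
  sSup (Lengths n₁ n₂ n₃)

/-- the three coordinates -/
def co (i : Fin 3) (t : ℤ × ℤ × ℤ) : ℤ := ![t.1, t.2.1, t.2.2] i

theorem co_or {a b : ℤ × ℤ × ℤ} (h : TwoLess a b) {p : Prop} (hp : p) {i j : Fin 3}
    (hij : i ≠ j) : (p ∧ co i a < co i b) ∨ (p ∧ co j a < co j b) := by
  have h' : co i a < co i b ∨ co j a < co j b := by
    have e0 : ∀ t, co 0 t = t.1 := fun t => rfl
    have e1 : ∀ t, co 1 t = t.2.1 := fun t => rfl
    have e2 : ∀ t, co 2 t = t.2.2 := fun t => rfl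
    unfold TwoLess at h
    fin_cases i <;> fin_cases j <;>
      simp only [Fin.zero_eta, Fin.mk_one, Fin.reduceFinMk, e0, e1, e2] <;> first
      | exact absurd rfl hij
      | tauto
  rcases h' with h' | h'
  · exact Or.inl ⟨hp, h'⟩
  · exact Or.inr ⟨hp, h'⟩

open Pool.Agent.Work.MP_7eddf1.GL in
theorem sq_le {n₁ n₂ n₃ : ℕ} {l : List (ℤ × ℤ × ℤ)} (hl : TwoIncreasing l)
    (hb : ∀ t ∈ l, InBox n₁ n₂ n₃ t) : l.length ^ 2 ≤ n₁ * n₂ * n₃ := by
  classical
  rcases Nat.eq_zero_or_pos l.length with h0 | hpos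
  · rw [h0]
    simp
  have hget : ∀ k : Fin l.length, InBox n₁ n₂ n₃ (l.get k) := fun k => hb _ (List.get_mem l k)
  have hk := hget ⟨0, hpos⟩
  have hn1 : 0 < n₁ := by
    have := hk.1
    omega
  have hn2 : 0 < n₂ := by
    have := hk.2.1
    omega
  have hn3 : 0 < n₃ := by
    have := hk.2.2
    omega
  set N : Fin 3 → ℕ := ![n₁, n₂, n₃] with hN
  have hNpos : ∀ i, (0 : ℝ) < N i := by
    intro i
    fin_cases i
    · simpa [hN] using hn1
    · simpa [hN] using hn2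
    · simpa [hN] using hn3
  have hco : ∀ (i : Fin 3) (k : Fin l.length), 1 ≤ co i (l.get k) ∧ co i (l.get k) ≤ N i := by
    intro i k
    have h := hget k
    fin_cases i
    · exact h.1
    · exact h.2.1
    · exact h.2.2
  have hpair : ∀ a b : Fin l.length, a < b → TwoLess (l.get a) (l.get b) := by
    intro a b hab
    exact List.pairwise_iff_get.1 hl a b hab
  have key := J_le_one (R := fun i a b => a < b ∧ co i (l.get a) < co i (l.get b))
    (fun i r t v h h' => ⟨h.1.trans h'.1, h.2.trans h'.2⟩) (fun i a b h => h.1)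
    (fun a b hab i j hij => co_or (hpair a b hab) hab hij)
    (u' := fun i t => ((co i (l.get t) : ℝ) - 1) / N i) (l' := fun i _ => 1 / (N i : ℝ))
    (fun i => ⟨fun t => by
        have : (1 : ℝ) ≤ co i (l.get t) := by exact_mod_cast (hco i t).1
        exact div_nonneg (by linarith) (hNpos i).le,
      fun t => by
        have := hNpos i
        positivity,
      fun t => by
        have : (co i (l.get t) : ℝ) ≤ N i := by exact_mod_cast (hco i t).2
        rw [← add_div, div_le_one (hNpos i)]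
        linarith,
      fun a b hab => by
        have : (co i (l.get a) : ℝ) + 1 ≤ co i (l.get b) := by exact_mod_cast hab.2
        rw [← add_div]
        refine div_le_div_of_nonneg_right ?_ (hNpos i).le
        linarith⟩)
  unfold J at key
  rw [Finset.sum_const, Finset.card_univ, Fintype.card_fin, nsmul_eq_mul] at key
  have e2 : (∏ i : Fin 3, 1 / (N i : ℝ)) = 1 / ((n₁ * n₂ * n₃ : ℕ) : ℝ) := by
    rw [Fin.prod_univ_three]
    simp only [hN, Matrix.cons_val_zero, Matrix.cons_val_one, Matrix.cons_val]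
    push_cast
    field_simp
  have hP : (0 : ℝ) < ((n₁ * n₂ * n₃ : ℕ) : ℝ) := by
    exact_mod_cast Nat.mul_pos (Nat.mul_pos hn1 hn2) hn3
  rw [e2, Real.sqrt_div zero_le_one, Real.sqrt_one, mul_one_div,
    div_le_one (Real.sqrt_pos.2 hP)] at key
  have h3 := (Real.le_sqrt (Nat.cast_nonneg l.length) hP.le).1 key
  exact_mod_cast h3

/-- **The Gowers-Long conjecture, in every box.** In a box `[n₁] × [n₂] × [n₃]` a 2-increasing
sequence has at most `√(n₁ n₂ n₃)` terms (so the largest length `F(n₁, n₂, n₃)` exists), and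
`F(n) = F(n, n, n) ≤ n ^ (3/2)` for every positive integer `n`. -/
theorem result :
    (∀ n₁ n₂ n₃ : ℕ, IsGreatest (Lengths n₁ n₂ n₃) (F n₁ n₂ n₃) ∧
      (F n₁ n₂ n₃ : ℝ) ≤ Real.sqrt (n₁ * n₂ * n₃)) ∧
    ∀ n : ℕ, 1 ≤ n → (F n n n : ℝ) ≤ (n : ℝ) ^ ((3 : ℝ) / 2) := by
  have main : ∀ n₁ n₂ n₃ : ℕ, IsGreatest (Lengths n₁ n₂ n₃) (F n₁ n₂ n₃) ∧
      (F n₁ n₂ n₃ : ℝ) ≤ Real.sqrt (n₁ * n₂ * n₃) := by
    intro n₁ n₂ n₃
    have hne : (Lengths n₁ n₂ n₃).Nonempty :=
      ⟨0, [], List.Pairwise.nil, fun t ht => absurd ht (List.not_mem_nil), rfl⟩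
    have hbdd : BddAbove (Lengths n₁ n₂ n₃) := by
      refine ⟨n₁ * n₂ * n₃, ?_⟩
      rintro L ⟨l, h1, h2, rfl⟩
      have := sq_le h1 h2
      nlinarith
    have hmem := Nat.sSup_mem hne hbdd
    refine ⟨⟨hmem, fun L hL => le_csSup hbdd hL⟩, ?_⟩
    obtain ⟨l, h1, h2, h3⟩ := hmem
    have h4 := sq_le h1 h2
    rw [h3] at h4
    refine Real.le_sqrt_of_sq_le ?_
    unfold F
    exact_mod_cast h4
  refine ⟨main, fun n hn => ?_⟩
  have h := (main n n n).2
  have hn' : (0 : ℝ) ≤ n := Nat.cast_nonneg n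
  have e1 : (n : ℝ) ^ ((3 : ℝ) / 2) = Real.sqrt ((n : ℝ) * n * n) := by
    rw [Real.sqrt_eq_rpow, show (n : ℝ) * n * n = (n : ℝ) ^ 3 by ring, ← Real.rpow_natCast,
      ← Real.rpow_mul hn']
    norm_num
  rw [e1]
  exact h

end Pool.Agent.Results.MP_7eddf1_co.BoxBound
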